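import Pool.Agent.Helper46.KleinSimplex

open Pool.Agent.Helper46.Klein MeasureTheory

/-- **The simplices of largest relative frequency, in every dimension.**
`mobius n` is invariant under `GL(n+1, ℝ)`; the relative frequency `mobius n (CFof n (poly s))` of
the unit simplex `conv(e_0, …, e_n)` is positive and finite; every simplex has at most this
relative frequency, and the simplices which have it are exactly those congruent to the unit simplex
or to one of the simplices `conv(2e_0 - e_1 - … - e_{k-1}, e_1, …, e_n)`, `k` odd,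
`3 ≤ k ≤ n + 1`. These congruence classes are different from one another. -/
theorem Pool.Agent.Results.MP_8a8f75_nt.SimplexMax.result (n : ℕ) (hn : 2 ≤ n) :
    (∀ g : Matrix (Fin (n + 1)) (Fin (n + 1)) ℝ, g.det ≠ 0 → ∀ S T : Set (CF n), MeasurableSet S →
      (∀ B B' : Frame n, (∀ i, B'.vec i = g.mulVec (B.vec i)) → (lines B' ∈ T ↔ lines B ∈ S)) →
      mobius n T = mobius n S) ∧
    0 < mobius n (CFof n (poly (unitVerts n))) ∧
    mobius n (CFof n (poly (unitVerts n))) < ⊤ ∧
    (∀ s : Finset (Fin (n + 1) → ℤ), s.card = n + 1 →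
      mobius n (CFof n (poly s)) ≤ mobius n (CFof n (poly (unitVerts n))) ∧
      (mobius n (CFof n (poly s)) = mobius n (CFof n (poly (unitVerts n))) ↔
        Congruent (unitVerts n) s ∨
        ∃ k, Odd k ∧ 3 ≤ k ∧ k ≤ n + 1 ∧ Congruent (halfVerts n k) s)) ∧
    ∀ k, Odd k → 3 ≤ k → k ≤ n + 1 → ¬ Congruent (halfVerts n k) (unitVerts n) ∧
      ∀ k', Odd k' → 3 ≤ k' → k' ≤ n + 1 → k ≠ k' → ¬ Congruent (halfVerts n k) (halfVerts n k') :=
  simplex_answer n hn
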