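import Pool.Agent.Helper46.KleinPlanar

open Pool.Agent.Helper46.Klein MeasureTheory

/-- **The faces of two-dimensional continued fractions of largest relative frequency.**
`mobius n` is invariant under `GL(n+1, ℝ)`; the relative frequency `mobius 2 (CFof 2 (poly s))` of
the unit triangle `conv(e_0, e_1, e_2)` is positive and finite, it is the largest one, and the
polygons with this relative frequency are exactly those congruent to the unit triangle or to the
triangle `conv(2e_0 - e_1 - e_2, e_1, e_2)` at integer distance two. -/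
theorem Pool.Agent.Results.MP_8a8f75_nt.TriangleMax.result :
    (∀ (n : ℕ) (g : Matrix (Fin (n + 1)) (Fin (n + 1)) ℝ), g.det ≠ 0 → ∀ S T : Set (CF n), MeasurableSet S →
      (∀ B B' : Frame n, (∀ i, B'.vec i = g.mulVec (B.vec i)) → (lines B' ∈ T ↔ lines B ∈ S)) →
      mobius n T = mobius n S) ∧
    0 < mobius 2 (CFof 2 (poly {![1, 0, 0], ![0, 1, 0], ![0, 0, 1]})) ∧
    mobius 2 (CFof 2 (poly {![1, 0, 0], ![0, 1, 0], ![0, 0, 1]})) < ⊤ ∧
    ∀ s : Finset (Fin 3 → ℤ),
      mobius 2 (CFof 2 (poly s)) ≤ mobius 2 (CFof 2 (poly {![1, 0, 0], ![0, 1, 0], ![0, 0, 1]})) ∧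
      (mobius 2 (CFof 2 (poly s)) = mobius 2 (CFof 2 (poly {![1, 0, 0], ![0, 1, 0], ![0, 0, 1]})) ↔
        Congruent (n := 2) {![1, 0, 0], ![0, 1, 0], ![0, 0, 1]} s ∨
        Congruent (n := 2) {![2, -1, -1], ![0, 1, 0], ![0, 0, 1]} s) :=
  planar_answer
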