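import Pool.Agent.Helper46.KleinConfig

open Pool.Agent.Helper46.Klein MeasureTheory

/-- **Reduction of the problem to finitely many polytopes, in every dimension.**
`mobius n` is invariant under `GL(n+1, ℝ)`; there are finitely many unimodular configurations; the
relative frequency of every integer polytope is finite and at most that of the convex hull of a
unimodular configuration; the largest relative frequency exists, is positive (and finite), and is
attained at the convex hull of a unimodular configuration. -/
theorem Pool.Agent.Results.MP_8a8f75_nt.UnimodularReduction.result (n : ℕ) :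
    (∀ g : Matrix (Fin (n + 1)) (Fin (n + 1)) ℝ, g.det ≠ 0 → ∀ S T : Set (CF n), MeasurableSet S →
      (∀ B B' : Frame n, (∀ i, B'.vec i = g.mulVec (B.vec i)) → (lines B' ∈ T ↔ lines B ∈ S)) →
      mobius n T = mobius n S) ∧
    {V : Finset (Fin (n + 1) → ℤ) | IsUnimodularConfig V}.Finite ∧
    (∀ s : Finset (Fin (n + 1) → ℤ), mobius n (CFof n (poly s)) < ⊤ ∧
      ∃ V, IsUnimodularConfig V ∧ mobius n (CFof n (poly s)) ≤ mobius n (CFof n (poly V))) ∧
    ∃ V : Finset (Fin (n + 1) → ℤ), IsUnimodularConfig V ∧ 0 < mobius n (CFof n (poly V)) ∧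
      ∀ s : Finset (Fin (n + 1) → ℤ), mobius n (CFof n (poly s)) ≤ mobius n (CFof n (poly V)) :=
  reduction n
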